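import Pool.Agent.LibKloosterman.Two
import Pool.Agent.LibVinogradov.Pairs3

set_option autoImplicit false

namespace Pool.Agent.Results.MP_6ea630_nt.TwoPrimes

open Finset Filter Topology

/-- The Kloosterman sum `S(m,n;c)`, `c ≥ 1`: the sum over `0 ≤ x < c` coprime to `c` of
`exp(2 π i (m x + n x⁻¹) / c)`, where `x⁻¹` is the inverse modulo `c`. -/
noncomputable def kloosterman (m n : ℤ) (c : ℕ) : ℂ :=
  ∑ x ∈ (range c).filter (fun x => x.Coprime c),
    Complex.exp (2 * Real.pi * Complex.I *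
      ((((m : ZMod c) * (x : ZMod c) + (n : ZMod c) * (x : ZMod c)⁻¹).val : ℕ) : ℂ) / c)

/-- `S(m,n;c)` is a positive real number. -/
def Pos (m n : ℤ) (c : ℕ) : Prop := ∃ r : ℝ, 0 < r ∧ kloosterman m n c = r

/-- `c` is the product of two primes `2 < r < s` with `s ≤ 8 r`. -/
def TwoPr (c : ℕ) : Prop :=
  ∃ r s : ℕ, r.Prime ∧ s.Prime ∧ 2 < r ∧ r < s ∧ s ≤ 8 * r ∧ c = r * s

lemma kloosterman_eq (a : ℤ) (c : ℕ) [NeZero c] : kloosterman a 1 c = Kloo.F a c 1 := by
  unfold kloosterman Kloo.F Kloo.K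
  symm
  refine sum_bij (fun (u : (ZMod c)ˣ) _ => (u : ZMod c).val) ?_ ?_ ?_ ?_
  · intro u _
    rw [mem_filter, mem_range]
    exact ⟨ZMod.val_lt _, ZMod.val_coe_unit_coprime u⟩
  · intro u _ v _ h
    exact Units.ext (ZMod.val_injective c h)
  · intro x hx
    rw [mem_filter, mem_range] at hx
    refine ⟨ZMod.unitOfCoprime x hx.2, mem_univ _, ?_⟩
    rw [ZMod.coe_unitOfCoprime, ZMod.val_natCast, Nat.mod_eq_of_lt hx.1]
  · intro u _
    have h1 : (((1 : ℕ) : ZMod c))⁻¹ = 1 := by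
      apply Kloo.inv_eq_of_mul_eq_one; simp
    rw [h1, one_pow, mul_one]
    rw [ZMod.natCast_zmod_val, ZMod.inv_coe_unit, Int.cast_one, one_mul]
    rw [ZMod.stdAddChar_apply, ZMod.toCircle_apply]

lemma pos_of_re (a : ℤ) (c : ℕ) [NeZero c] (h : 0 < (Kloo.F a c 1).re) : Pos a 1 c :=
  ⟨_, h, by rw [kloosterman_eq, Kloo.F_real]; simp⟩

lemma two_primeFactors {c : ℕ} (h : TwoPr c) : #c.primeFactors ≤ 2 := by
  obtain ⟨r, s, hr, hs, -, hrs, -, rfl⟩ := h
  rw [((Nat.coprime_primes hr hs).2 (by omega)).primeFactors_mul, Nat.Prime.primeFactors hr,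
    Nat.Prime.primeFactors hs]
  exact (card_union_le _ _).trans (by simp)

lemma gcd_one {b : ℤ} (hb : b ≠ 0) {r s : ℕ} (hr : r.Prime) (hs : s.Prime)
    (hbr : b.natAbs < r) (hbs : b.natAbs < s) : Int.gcd b ((r * s : ℕ) : ℤ) = 1 := by
  have h : ∀ p : ℕ, p.Prime → b.natAbs < p → b.natAbs.Coprime p := by
    intro p hp hbp
    rw [Nat.coprime_comm, hp.coprime_iff_not_dvd]
    intro h
    have := Nat.le_of_dvd (Int.natAbs_pos.2 hb) h
    omega
  rw [Int.gcd, Int.natAbs_natCast]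
  exact (h r hr hbr).mul_right (h s hs hbs)

/-- Let `b` be a nonzero integer. For some `δ > 0` and all large `X`, the number of `c ≤ X` that
are products of two odd primes `r < s ≤ 8 r`, are coprime to `b` and have `S(b,1;c) > 0`, plus the
number of such `c` with `S(4b,1;c) > 0`, is at least `δ X / (log X)^3`. -/
theorem result (b : ℤ) (hb : b ≠ 0) : ∃ δ : ℝ, 0 < δ ∧ ∀ᶠ X : ℝ in atTop,
    δ * X / Real.log X ^ 3 ≤
      (({c : ℕ | (c : ℝ) ≤ X ∧ (TwoPr c ∧ Int.gcd b c = 1 ∧ Pos b 1 c)} : Set ℕ).ncard : ℝ) +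
      (({c : ℕ | (c : ℝ) ≤ X ∧ (TwoPr c ∧ Int.gcd b c = 1 ∧ Pos (4 * b) 1 c)} : Set ℕ).ncard :
        ℝ) := by
  classical
  obtain ⟨cc, hcc, hpairs⟩ := LSieve.pairs_exist3 3 1 2 Nat.prime_three (by norm_num)
    (by norm_num) (by norm_num) (by decide)
  apply Kloo.real_transfer2 _ _ 256 3 (by norm_num) (cc / 8) (by positivity)
  filter_upwards [hpairs, eventually_ge_atTop (b.natAbs + 3)] with n hn hnl
  obtain ⟨𝒬, hcard, h𝒬⟩ := hn
  set S : Finset ℕ := (Icc 1 (256 * n ^ 64)).filter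
    (fun c => TwoPr c ∧ Int.gcd b c = 1 ∧ Pos b 1 c) with hS
  set S' : Finset ℕ := (Icc 1 (256 * n ^ 64)).filter
    (fun c => TwoPr c ∧ Int.gcd b c = 1 ∧ Pos (4 * b) 1 c) with hS'
  refine ⟨S, S', ?_, ?_, ?_⟩
  · intro c hc
    rw [hS, mem_filter, mem_Icc] at hc
    exact ⟨hc.1.2, hc.2⟩
  · intro c hc
    rw [hS', mem_filter, mem_Icc] at hc
    exact ⟨hc.1.2, hc.2⟩
  have h1 : #𝒬 ≤ 2 * 2 * (#S + #S') := by
    apply Kloo.count_transfer2 𝒬 S S' 1 2 one_pos
    · intro c hc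
      rw [hS, mem_filter] at hc
      exact two_primeFactors hc.2.1
    · intro c hc
      rw [hS, mem_filter, mem_Icc] at hc
      omega
    · intro c hc
      rw [hS', mem_filter] at hc
      exact two_primeFactors hc.2.1
    · intro c hc
      rw [hS', mem_filter, mem_Icc] at hc
      omega
    · rintro ⟨p, q⟩ hx
      obtain ⟨hp, hq, hpn, hpq, hqn, -, -, t, ht, htn, hqt⟩ := h𝒬 _ hx
      simp only at *
      have hn32 : n ≤ n ^ 32 := Nat.le_self_pow (by norm_num) n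
      refine ⟨hp, hq, t, hqt, ?_⟩
      have hpt : p ≠ t := by
        rintro rfl
        have h3 : 3 ∣ q := ⟨p, by omega⟩
        have h4 := (Nat.prime_dvd_prime_iff_eq Nat.prime_three hq).1 h3
        omega
      have : NeZero p := ⟨hp.ne_zero⟩
      have : NeZero q := ⟨hq.ne_zero⟩
      have : NeZero t := ⟨ht.ne_zero⟩
      have : NeZero (2 * t) := ⟨mul_ne_zero two_ne_zero ht.ne_zero⟩
      have c2t : Nat.Coprime 2 t := (Nat.coprime_primes Nat.prime_two ht).2 (by omega)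
      have c2p : Nat.Coprime 2 p := (Nat.coprime_primes Nat.prime_two hp).2 (by omega)
      have c2q : Nat.Coprime 2 q := (Nat.coprime_primes Nat.prime_two hq).2 (by omega)
      have cpt : Nat.Coprime p t := (Nat.coprime_primes hp ht).2 hpt
      have key := Kloo.prod_pos3 (4 * b) p (2 * t) q (by omega) (c2p.symm.mul_right cpt)
        hp.prime.squarefree
        ((Nat.squarefree_mul_iff).2 ⟨c2t, Nat.prime_two.prime.squarefree, ht.prime.squarefree⟩)
        hq.prime.squarefree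
      have e1 : Kloo.F (4 * b) (p * (2 * t)) 1 = - Kloo.F b (p * t) 1 := by
        rw [← Kloo.F_two b (p * t) (c2p.mul_right c2t)]
        exact Kloo.F_cast _ _ (by ring)
      have e2 : Kloo.F (4 * b) (2 * t * q) 1 = - Kloo.F b (t * q) 1 := by
        rw [← Kloo.F_two b (t * q) (c2t.mul_right c2q)]
        exact Kloo.F_cast _ _ (by ring)
      rw [e1, e2, Complex.neg_re, Complex.neg_re] at key
      have hmem : ∀ u v : ℕ, u.Prime → v.Prime → u ≠ v → 2 * n ^ 32 < u → 2 * n ^ 32 < v →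
          u ≤ 16 * n ^ 32 → v ≤ 16 * n ^ 32 →
          1 ≤ u * v ∧ u * v ≤ 256 * n ^ 64 ∧ TwoPr (u * v) ∧ Int.gcd b ((u * v : ℕ) : ℤ) = 1 := by
        intro u v hu hv huv hun hvn hun' hvn'
        refine ⟨Nat.mul_pos hu.pos hv.pos, ?_, ?_, gcd_one hb hu hv (by omega) (by omega)⟩
        · calc u * v ≤ (16 * n ^ 32) * (16 * n ^ 32) := Nat.mul_le_mul hun' hvn'
            _ = _ := by ring
        · rcases lt_or_gt_of_ne huv with h | h
          · exact ⟨u, v, hu, hv, by omega, h, by omega, rfl⟩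
          · exact ⟨v, u, hv, hu, by omega, h, by omega, mul_comm _ _⟩
      by_contra hcon
      push Not at hcon
      obtain ⟨n1, n2, n3⟩ := hcon
      rw [one_mul] at n1 n2 n3
      have m1 := hmem p t hp ht hpt (by omega) htn (by omega) (by omega)
      have m2 := hmem t q ht hq (by omega) htn (by omega) (by omega) (by omega)
      have m3 := hmem q p hq hp (by omega) (by omega) (by omega) (by omega) (by omega)
      have f1 : (Kloo.F b (p * t) 1).re ≤ 0 := by
        by_contra h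
        push Not at h
        apply n1
        rw [hS, mem_filter, mem_Icc]
        exact ⟨⟨m1.1, m1.2.1⟩, m1.2.2.1, m1.2.2.2, pos_of_re b _ h⟩
      have f2 : (Kloo.F b (t * q) 1).re ≤ 0 := by
        by_contra h
        push Not at h
        apply n2
        rw [hS, mem_filter, mem_Icc]
        exact ⟨⟨m2.1, m2.2.1⟩, m2.2.2.1, m2.2.2.2, pos_of_re b _ h⟩
      have f3 : (Kloo.F (4 * b) (q * p) 1).re ≤ 0 := by
        by_contra h
        push Not at h
        apply n3
        rw [hS', mem_filter, mem_Icc]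
        exact ⟨⟨m3.1, m3.2.1⟩, m3.2.2.1, m3.2.2.2, pos_of_re (4 * b) _ h⟩
      rw [neg_mul_neg] at key
      have g1 := mul_nonneg_of_nonpos_of_nonpos f1 f2
      have g2 := mul_nonpos_of_nonneg_of_nonpos g1 f3
      linarith
  have h2 : (#𝒬 : ℝ) ≤ 4 * (#S + #S') := by
    have : ((#𝒬 : ℕ) : ℝ) ≤ ((2 * 2 * (#S + #S') : ℕ) : ℝ) := by exact_mod_cast h1
    push_cast at this
    linarith
  have h3 := hcard.trans h2
  have h4 : cc / 8 * (n : ℝ) ^ 64 / Real.log n ^ 3 =
    (cc * (n : ℝ) ^ 64 / Real.log n ^ 3) / 8 := by ring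
  rw [h4]
  have h5 : (0 : ℝ) ≤ (#S : ℝ) + #S' := by positivity
  linarith

end Pool.Agent.Results.MP_6ea630_nt.TwoPrimes
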